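import Mathlib

/-!
# MP_07c750 (quantum unique ergodicity, weight 10), PROJECT LP (helper84): reflection with a large gain; pure part, rows `lp:XXX`

THEOREM LP: `F(h) + F(a) ≤ 1` whenever `h < 1` and `2a(1 + h) < 2 - h` (for `a < 1/4` and ALL `h < 1`: the Liouville part has at least the mass of the part of entropy `< 1/4`). Page: /team-store/LP_page_helper84.md.

RULES. Row `lp:XXX` (problem MP_07c750_an): file `Pool/Agent/<seat>/LP/XXX.lean`, `import Pool.Agent.helper84.LP.SpecP` (and what you need), `set_option autoImplicit false`, namespace `Pool.Agent.LP`, auxiliary lemmas prefixed `XXX_`, theorem `XXX_proof (h : YYY_stmt) .. : XXX_stmt` with the rows listed in `from` as hypotheses.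
No straight double quotes, no `convert`, `congr!`, `native_decide`. A false or doubtful statement: message to helper84 at once.
-/

open MeasureTheory Set

set_option autoImplicit false

namespace Pool.Agent.LP

noncomputable section

/-- `e^(i s)` -/
def ee (s : ℝ) : ℂ := Complex.exp ((s : ℂ) * Complex.I)

/-- the leaf coordinate `u/(1 - X u)`, `X` = the slope -/
def mm (X u : ℝ) : ℝ := u / (1 - X * u)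

/-- its derivative -/
def md (X u : ℝ) : ℝ := 1 / (1 - X * u) ^ 2

/-- the Fourier transform of the image of `U` -/
def kk (U : Set ℝ) (X t : ℝ) : ℂ := ∫ u in U, ee (t * mm X u) * (md X u : ℂ)

/-- the inner products -/
def ip (X t X' t' : ℝ) : ℂ := ∫ u in Icc (-2 : ℝ) 2, ee (t * mm X u - t' * mm X' u) * ((md X u * md X' u : ℝ) : ℂ)

/-- a finite set of frequencies of dimension `a` at all scales `≥ 1` -/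
def RG (N κ a : ℝ) (T : Finset ℝ) : Prop := ∀ y R : ℝ, 1 ≤ R → ((T.filter fun t => |t - y| ≤ R).card : ℝ) ≤ N ^ κ * R ^ a

/-! ## The second moment over the slopes -/

/-- **Row OSL** (oscillatory integral whose phase has the derivative `t (A + B u) k(u)`; short-medium; pure). Let `ℓ = A + B u`. First part: on `[x, y]` `ℓ` has constant sign. Integrate by parts: `∫ e^(iΦ) g = [e^(iΦ) g/(iΦ')] - ∫ e^(iΦ) (g/(iΦ'))'`, `Φ' = t ℓ k`; the boundary terms are `≤ 2 C1²/(t L)`;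
`(g/(ℓ k))' = g'/(ℓ k) - g k'/(ℓ k²) - g B/(ℓ² k)`, and `∫_x^y |B|/ℓ² = |1/ℓ(x) - 1/ℓ(y)| ≤ 1/L` (or `≤ 2/L`). Second part: `L = (|B|/t)^(1/2)`: `{u ∈ [-2, 2] : |ℓ u| < L}` is an interval of length `≤ 2L/|B|` (trivial bound `C1`), the rest is at most two intervals (first part): `C1 2 L/|B| + 2 C/(t L)`. -/
def OSL_stmt : Prop := ∀ C1 : ℝ, 1 ≤ C1 → ∃ C : ℝ, 1 ≤ C ∧ ∀ (t A B : ℝ) (Φ k k' g g' : ℝ → ℝ), 0 < t →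
  (∀ u ∈ Icc (-2 : ℝ) 2, HasDerivAt Φ (t * (A + B * u) * k u) u ∧ HasDerivAt k (k' u) u ∧ HasDerivAt g (g' u) u ∧ 1 / C1 ≤ k u ∧ k u ≤ C1 ∧ |k' u| ≤ C1 ∧ |g u| ≤ C1 ∧ |g' u| ≤ C1) →
  ContinuousOn k' (Icc (-2 : ℝ) 2) → ContinuousOn g' (Icc (-2 : ℝ) 2) →
    (∀ x y L : ℝ, -2 ≤ x → x ≤ y → y ≤ 2 → 0 < L → (∀ u ∈ Icc x y, L ≤ |A + B * u|) → ‖∫ u in Icc x y, ee (Φ u) * (g u : ℂ)‖ ≤ C / (t * L)) ∧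
    (B ≠ 0 → ‖∫ u in Icc (-2 : ℝ) 2, ee (Φ u) * (g u : ℂ)‖ ≤ C / Real.sqrt (t * |B|))

/-- **Row OSI** (THE OSCILLATORY INTEGRAL; medium; from OSL). Always `‖ip‖ ≤ 7`. `ip X t X' t' = conj (ip X' t' X t)`; changing both signs of `t, t'` conjugates. Opposite signs (or one is `0`): `Φ' = ± (|t| + |t'|) k(u)`, `k = (|t|/(1 - X u)² + |t'|/(1 - X' u)²)/(|t| + |t'|)`, `A = 1`, `B = 0`: OSL (1) with `L = 1`: `≤ C/(|t| + |t'|)`, which gives both claims.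
Equal signs: let `t ≥ t' > 0`, `ρ = √(t'/t) ≤ 1`. `Φ' = t/(1 - Xu)² - t'/(1 - X'u)² = t ℓ(u) k(u)` with `ℓ(u) = (1 - X'u) - ρ (1 - Xu) = A + B u`, `A = 1 - ρ`, `B = ρ X - X'`, `k(u) = ((1 - X'u) + ρ (1 - Xu))/((1 - Xu)² (1 - X'u)²)`. `Δ = |X - X'|`; `|B| ≤ Δ + A/16`, so `|ℓ| ≥ A - 2|B| ≥ (7/8) A - 2Δ`.
(b): `A = (t - t')/(t (1 + ρ)) ≥ (t - t')/(2t) ≥ 4Δ`, so `|ℓ| ≥ (3/8) A` and OSL (1) gives `C/(t A) ≤ 2C/(t - t')`. (a): if `A ≥ 4Δ` and `A > 0`: `≤ C/(t A)` and `≤ 7`, so `≤ C'/√(1 + t A) ≤ C'/√(1 + tΔ)`. If `A < 4Δ` (so `Δ > 0`): `|B| ≥ Δ - A/16 ≥ (3/4)Δ` (`B = (X - X') - (1 - ρ) X`), OSL (2): `≤ C/√(tΔ)`. (`A = Δ = 0`: `≤ 7`.) -/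
def OSI_stmt : Prop := ∃ C : ℝ, 1 ≤ C ∧ ∀ X X' t t' : ℝ, |X| ≤ 1 / 16 → |X'| ≤ 1 / 16 →
  (∀ T : ℝ, 0 ≤ T → T ≤ |t| → T ≤ |t'| → ‖ip X t X' t'‖ ≤ C / Real.sqrt (1 + T * |X - X'|)) ∧
  (8 * |X - X'| * max |t| |t'| ≤ |t - t'| → |t - t'| * ‖ip X t X' t'‖ ≤ C)

/-- **Row SSM** (summation; medium; pure; from OSI). Fix `X`, `t`. For `X'` at the distance `Δ` let `r = max 1 (8 C1 N Δ)`. The `t' ∈ T X'` with `|t - t'| ≤ r`: at most `N^κ r^a` (RG with `R = r`), each `≤ C (1 + T0 Δ)^(-1/2) ≤ C (N/T0)^(1/2) (1 + NΔ)^(-1/2)` (OSI (a), `T = T0`; `1 + T0 Δ ≥ (T0/N)(1 + NΔ)`), and `r^a ≤ C (1 + NΔ)^a`.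
The `t'` with `|t - t'| > r ≥ 8Δ max |t| |t'|`: each `≤ C/|t - t'|` (OSI (b)); dyadically, `2^k r < |t - t'| ≤ 2^(k+1) r`: at most `N^κ (2^(k+1) r)^a`, so the sum is `≤ C N^κ r^(a-1) Σ_k 2^(1 + k(a - 1)) ≤ C N^κ (1 + NΔ)^(a - 1/2)` (`a < 1/2`, `r ≥ (1 + NΔ)/2`). So the sum over `t'` is `≤ C N^κ (N/T0) (1 + NΔ)^(a - 1/2)`.
Sum over `X'`: the numbers `⌊N (X' - X)⌋` are different; those of absolute value `≤ n` (`n = #XX`) contribute at most `2 + 2 Σ_(k ≤ n) k^(a - 1/2)`-like sums `≤ C n^(a + 1/2)` (`Σ_(k=1)^n k^(-s) ≤ n^(1-s)/(1 - s)`, `s = 1/2 - a ∈ (0, 1/2]`), the other at most `n` values at most `n^(a - 1/2)` each. -/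
def SSM_stmt : Prop := ∀ C1 : ℝ, 1 ≤ C1 → ∃ C : ℝ, 1 ≤ C ∧ ∀ (a κ N T0 : ℝ) (XX : Finset ℝ) (T : ℝ → Finset ℝ), 0 ≤ a → a < 1 / 2 → 0 ≤ κ → 1 ≤ T0 → T0 ≤ N →
  (∀ X ∈ XX, |X| ≤ 1 / 16 ∧ RG N κ a (T X) ∧ ∀ t ∈ T X, T0 ≤ |t| ∧ |t| ≤ C1 * N) → (∀ X ∈ XX, ∀ X' ∈ XX, X ≠ X' → 1 ≤ N * |X - X'|) →
    ∀ X ∈ XX, ∀ t ∈ T X, ∑ X' ∈ XX, ∑ t' ∈ T X', ‖ip X t X' t'‖ ≤ C * N ^ κ * (N / T0) * (XX.card : ℝ) ^ (a + 1 / 2)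

/-- **Row BSP** (FEW BAD SLOPES; medium; pure; from SSM). `n = #XX` (`n = 0`: `0 ^ (1/2 - a) = 0`). Choose `ε_(X,t)` of modulus `1` with `ε_(X,t) kk U X t = ‖kk U X t‖` and `F = Σ_X Σ_(t ∈ T X) ε_(X,t) ee(t mm X u) md X u`: `n τ ≤ ∫_U F ≤ δ^(1/2) (∫_[-2,2] ‖F‖²)^(1/2)`, `∫ ‖F‖² = Σ Σ ε conj ε' ip X t X' t' ≤ Σ_X Σ_t (Σ_X' Σ_t' ‖ip‖)
≤ n · C1 N^(κ + a) · C N^κ (N/T0) n^(a + 1/2)` (`#(T X) ≤ N^κ (C1 N)^a`: RG with `y = 0`, `R = C1 N`). Divide by `n^(a + 3/2)`. -/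
def BSP_stmt : Prop := ∀ C1 : ℝ, 1 ≤ C1 → ∃ C : ℝ, 1 ≤ C ∧ ∀ (a κ N T0 τ δ : ℝ) (U : Set ℝ) (XX : Finset ℝ) (T : ℝ → Finset ℝ), 0 ≤ a → a < 1 / 2 → 0 ≤ κ → 1 ≤ T0 → T0 ≤ N → 0 ≤ τ → MeasurableSet U → U ⊆ Icc (-2 : ℝ) 2 → volume.real U ≤ δ →
  (∀ X ∈ XX, |X| ≤ 1 / 16 ∧ RG N κ a (T X) ∧ ∀ t ∈ T X, T0 ≤ |t| ∧ |t| ≤ C1 * N) → (∀ X ∈ XX, ∀ X' ∈ XX, X ≠ X' → 1 ≤ N * |X - X'|) → (∀ X ∈ XX, τ ≤ ∑ t ∈ T X, ‖kk U X t‖) →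
    (XX.card : ℝ) ^ (1 / 2 - a) * τ ^ 2 ≤ C * δ * N ^ (a + 2 * κ) * (N / T0)

/-! ## Regular sets of frequencies, bad slopes -/

/-- a set of integers of dimension `a` at the scales `e^(i m)`, `i ≤ G`, of size `≤ C e^(G m)` -/
def AR (C a η : ℝ) (G m : ℕ) (D : Finset ℤ) : Prop := (∀ d ∈ D, |(d : ℝ)| ≤ C * Real.exp (G * m)) ∧
  ∀ i : ℕ, i ≤ G → ∀ y : ℝ, ((D.filter fun d : ℤ => |(d : ℝ) - y| ≤ Real.exp (i * m)).card : ℝ) ≤ C * Real.exp ((a + η) * (i * m))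

/-- **Row RGG** (short-medium; pure). `N = e^(Gm)`. `|c (d - x) - y| ≤ R` implies `|d - y'| ≤ R/c ≤ R`. If `R ≤ N` let `i = ⌈log R/m⌉ ≤ G`: at most `C1 e^((a+η) i m) ≤ C1 e^((a+η) m) R^(a+η) ≤ C1 e^m N^η R^a` elements. If `R > N`: at most `#D ≤ (C1 + 1) C1 e^((a+η) G m)` (`D ⊆ [-C1 N, C1 N]`: at most `C1 + 1` intervals of half length `N`). `e^m = N^(1/G)`, `1/G + η < κ`. -/
def RGG_stmt : Prop := ∀ (C1 a η κ : ℝ) (G : ℕ), 1 ≤ C1 → 0 ≤ a → 0 ≤ η → a + η ≤ 1 → 1 ≤ G → 1 / (G : ℝ) + η < κ → ∃ m0 : ℕ, ∀ (m : ℕ) (D : Finset ℤ) (c x : ℝ), m0 ≤ m → 1 ≤ c → c ≤ 4 → AR C1 a η G m D →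
  RG (Real.exp (G * m)) κ a (D.image fun d : ℤ => c * ((d : ℝ) - x))

/-- half the scale of the near diagonal -/
def hG (G m : ℕ) : ℕ := ⌊Real.exp (((G : ℝ) - 1) * m) / 2⌋₊

/-- the slope `X` is good for `U` -/
def GD (U : Set ℝ) (C1 a η : ℝ) (G m : ℕ) (X : ℝ) : Prop := ∀ (D : Finset ℤ) (c : ℝ), AR C1 a η G m D → 1 ≤ c → c ≤ 4 → ∀ d ∈ D,
  ∑ d' ∈ D.filter (fun d' : ℤ => ((hG G m : ℕ) : ℤ) ≤ |d' - d|), ‖kk U X (c * ((d' : ℝ) - d))‖ ≤ Real.exp (-m)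

/-- **Row BBC** (few bad cells; medium; exponents; from BSP, RGG). `N = e^(Gm)`, `ξ = (b/4)/N`. For `k ∈ K` choose a bad `X_k` of the cell, with its `D`, `c`, `d`; `T = {c (d' - d) : d' ∈ D, hG ≤ |d' - d|}`: RG (subset of the set in RGG, `x = d`) with `κ = 1/G + 3η/2`; `T0 = e^((G-1)m)/4 ≤ hG ≤ |t| ≤ 8 C1 N`; the sum over `T` is the sum over `d'` (`c ≠ 0`), `> τ = e^(-m)`.
Residue classes modulo `K0 = ⌈4/b⌉ + 1`: the `X_k` of one class are at distances `≥ (K0 - 1) ξ ≥ 1/N`; let `n` be the largest class, `#K ≤ K0 n`. BSP (`C1 := 8 C1`, `δ = C1 e^((h + η - 1) G m)`): `n^(1/2 - a) ≤ C e^(2m) 4 e^m e^((h + η - 1 + a + 2κ) G m) = C e^((a + h - 1 + 4η + 5/G) G m)`, and `a + h - 1 + 4η + 5/G < β (1/2 - a)`. -/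
def BBC_stmt : Prop := ∀ (C1 a η h β b : ℝ) (G : ℕ), 1 ≤ C1 → 0 ≤ a → a < 1 / 2 → 0 < η → a + η ≤ 1 → 2 ≤ G → 0 < b → b ≤ 1 → a + h - 1 + 5 * η + 6 / (G : ℝ) < β * (1 / 2 - a) → ∃ m0 : ℕ, ∀ (m : ℕ) (U : Set ℝ) (K : Finset ℤ), m0 ≤ m →
  MeasurableSet U → U ⊆ Icc (-2 : ℝ) 2 → volume.real U ≤ C1 * Real.exp ((h + η - 1) * (G * m)) →
  (∀ k ∈ K, ∃ X : ℝ, (k : ℝ) * (b / 4 * Real.exp (-(G * m))) ≤ X ∧ X < (k + 1) * (b / 4 * Real.exp (-(G * m))) ∧ |X| ≤ 1 / 16 ∧ ¬ GD U C1 a η G m X) → (K.card : ℝ) ≤ Real.exp (β * (G * m))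

/-! ## The leaf inequality -/

/-- **Row SBA** (SUBMULTIPLICATIVITY; medium; pure; compare SUB in project T1 (`Pool/Agent/helper52/T1/SpecS.lean` and its proof)). `j = N1 d + e`, `0 ≤ e < N1`, `d = j / N1 ∈ D`. `f(v) = Σ_d ee(π N1 d v/2) B_d(v)`, `B_d(v) = Σ_e c_(N1 d + e) ee(π e v/2)`. On `I_c = [c/N1, (c+1)/N1]`, `v_c = c/N1`: `B_d(v) = B_d(v_c) + ∫_(v_c)^v B_d'`, so
`∫_(Y ∩ I_c) |f|² ≤ 2 ∫_(Y ∩ I_c) |Σ_d ee B_d(v_c)|² + (2/N1) ∫_(s ∈ I_c) ∫_(v ∈ Y ∩ I_c, v ≥ s) |Σ_d ee(..v) B_d'(s)|² dv ds ≤ (2Q/N1) Σ_d |B_d(v_c)|² + (2Q/N1²) ∫_(I_c) Σ_d |B_d'|²` and `|B_d(v_c)|² ≤ 2 N1 ∫_(I_c) |B_d|² + (2/N1) ∫_(I_c) |B_d'|²`. Sum over `c < N1`: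
`∫_0^1 |B_d|² ≤ ∫_0^4 |B_d|² = 4 Σ_e |c|²` (orthogonality of `ee(π e v/2)` on `[0, 4]`), `∫_0^1 |B_d'|² ≤ 4 (π N1/2)² Σ_e |c|²`. -/
def SBA_stmt : Prop := ∃ C0 : ℝ, 1 ≤ C0 ∧ ∀ (N1 : ℕ) (Y : Set ℝ) (J : Finset ℤ) (Q : ℝ), 1 ≤ N1 → MeasurableSet Y → Y ⊆ Icc (0 : ℝ) 1 → 0 ≤ Q →
  (∀ (c : ℕ) (b : ℤ → ℂ), c < N1 → ∫ v in Y ∩ Icc ((c : ℝ) / N1) (((c : ℝ) + 1) / N1), ‖∑ d ∈ J.image (fun j : ℤ => j / (N1 : ℤ)), b d * ee (Real.pi * N1 * d * v / 2)‖ ^ 2 ≤ Q / N1 * ∑ d ∈ J.image (fun j : ℤ => j / (N1 : ℤ)), ‖b d‖ ^ 2) →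
    ∀ c : ℤ → ℂ, ∫ v in Y, ‖∑ j ∈ J, c j * ee (Real.pi * j * v / 2)‖ ^ 2 ≤ C0 * Q * ∑ j ∈ J, ‖c j‖ ^ 2

/-- **Row NEA** (frequencies in an interval of length `H`, small density at the scale `1/H`; short-medium; pure). The factor `ee(lam r v)` does not matter: `f(v) = Σ b_d ee(lam (d - r) v)`, `0 ≤ d - r < H`. For an interval `I` of length `1/H`: `sup_I |f|² ≤ 2 H ∫_I |f|² + (2/H) ∫_I |f'|²`, `∫_(V ∩ I) |f|² ≤ (ϑ/H) sup_I |f|²`. Sum over the `I` which cover `[-4, 4]` (they are in `[-4, 5]`):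
`≤ 2ϑ ∫_(-4)^5 |f|² + (2ϑ/H²) ∫ |f'|²`; the period is `2π/lam ∈ [π/2, 2π]`: `∫_(-4)^5 |Σ b_d ee(lam d v)|² ≤ 100 Σ |b_d|²`, and `|f'|²` has the coefficients `lam (d - r) b_d`, at most `4 H |b_d|`. -/
def NEA_stmt : Prop := ∃ C : ℝ, 1 ≤ C ∧ ∀ (H : ℕ) (ϑ lam : ℝ) (V : Set ℝ) (D : Finset ℤ) (r : ℤ) (b : ℤ → ℂ), 1 ≤ H → 1 ≤ lam → lam ≤ 4 → 0 ≤ ϑ → MeasurableSet V → V ⊆ Icc (-4 : ℝ) 4 → (∀ y : ℝ, volume.real (V ∩ Icc y (y + 1 / H)) ≤ ϑ / H) → (∀ d ∈ D, r ≤ d ∧ d < r + H) →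
  ∫ v in V, ‖∑ d ∈ D, b d * ee (lam * d * v)‖ ^ 2 ≤ C * ϑ * ∑ d ∈ D, ‖b d‖ ^ 2

/-- **Row NFR** (near and far; medium; pure). `∫_V |Σ b_d ee(lam d v)|² = Σ_(d,d') b_d conj(b_d') K(d - d')`, `K(k) = ∫_V ee(lam k v)`. `Λ_R(k) = max 0 (1 - |k|/R)`, `R Λ_R(d - d')` = the number of `r ∈ ℤ` with `r ≤ d, d' < r + R`, so `Σ b conj(b') K Λ_R = (1/R) Σ_r ∫_V |Σ_(r ≤ d < r + R) b_d ee|² ≥ 0`; for `R = 2H` it is `≤ Q1 Σ |b_d|²` (each `d` is in `2H` windows).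
`w = 2 Λ_(2H) - Λ_H` is `1` for `|k| ≤ H`, in `[0, 1]`, and `0` for `|k| ≥ 2H`. So the integral is `≤ 2 Q1 Σ|b|²` (the part `- Λ_H` is `≤ 0`) `+ Σ_(|d - d'| ≥ H) |b_d| |b_d'| |K(d' - d)|`, Schur (`|K(-k)| = |K(k)|`): `≤ Q2 Σ |b_d|²`. -/
def NFR_stmt : Prop := ∀ (H : ℕ) (lam Q1 Q2 : ℝ) (V : Set ℝ) (D : Finset ℤ), 1 ≤ H → MeasurableSet V → V ⊆ Icc (-4 : ℝ) 4 → 0 ≤ Q1 →
  (∀ (r : ℤ) (b : ℤ → ℂ), ∫ v in V, ‖∑ d ∈ D.filter (fun d : ℤ => r ≤ d ∧ d < r + 2 * H), b d * ee (lam * d * v)‖ ^ 2 ≤ Q1 * ∑ d ∈ D.filter (fun d : ℤ => r ≤ d ∧ d < r + 2 * H), ‖b d‖ ^ 2) →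
  (∀ d ∈ D, ∑ d' ∈ D.filter (fun d' : ℤ => (H : ℤ) ≤ |d' - d|), ‖∫ v in V, ee (lam * ((d' : ℝ) - d) * v)‖ ≤ Q2) →
    ∀ b : ℤ → ℂ, ∫ v in V, ‖∑ d ∈ D, b d * ee (lam * d * v)‖ ^ 2 ≤ (2 * Q1 + Q2) * ∑ d ∈ D, ‖b d‖ ^ 2

/-- **Row KVU** (change of variables; short-medium; pure). `φ u = A + mm X u/d0²` is smooth and strictly increasing on `[-2, 2]` with derivative `md X u/d0² ∈ [3/4, 27/20]`. Image of a measurable set under an injective continuous map (or `MeasurableSet.image_of_continuousOn_injOn`); `|mm| ≤ 16/7`, so the image is in `[-4, 4]`; `integral_image_eq_integral_abs_deriv_smul`; `|ee(s A)| = 1`.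
Density: the `u` with `φ u ∈ [y, y + 1/H]` are in an interval of length `≤ (4/3)/H`, i.e. in two intervals of length `1/H`, and `vol (φ '' E) ≤ (27/20) vol E`. -/
def KVU_stmt : Prop := ∀ (U : Set ℝ) (X d0 A : ℝ), MeasurableSet U → U ⊆ Icc (-2 : ℝ) 2 → |X| ≤ 1 / 16 → |d0 - 1| ≤ 1 / 100 → |A| ≤ 1 →
  MeasurableSet ((fun u : ℝ => A + mm X u / d0 ^ 2) '' U) ∧ ((fun u : ℝ => A + mm X u / d0 ^ 2) '' U) ⊆ Icc (-4 : ℝ) 4 ∧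
  (∀ s : ℝ, ‖∫ v in ((fun u : ℝ => A + mm X u / d0 ^ 2) '' U), ee (s * v)‖ = 1 / d0 ^ 2 * ‖kk U X (s / d0 ^ 2)‖) ∧
  ∀ (H : ℕ) (ϑ : ℝ), 1 ≤ H → (∀ y : ℝ, volume.real (U ∩ Icc y (y + 1 / H)) ≤ ϑ / H) → ∀ y : ℝ, volume.real (((fun u : ℝ => A + mm X u / d0 ^ 2) '' U) ∩ Icc y (y + 1 / H)) ≤ 4 * ϑ / H

/-- **Row LCL** (the local inequality; short-medium; pure; from NEA, NFR, KVU). `V = φ '' U`. NEA for `2H` and `4ϑ`: `Q1 = C 4 ϑ`; `‖K(d' - d)‖ = (1/d0²) ‖kk U X ((lam/d0²)(d' - d))‖` (KVU with `s = lam (d' - d)`): `≤ (1/d0²) Q2 ≤ 2 Q2`. NFR; the integral over `V' ⊆ V` is smaller (continuous integrand on a bounded set). (`0 ≤ ϑ` follows from the hypothesis.) -/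
def LCL_stmt : Prop := ∃ C : ℝ, 1 ≤ C ∧ ∀ (H : ℕ) (ϑ lam Q2 X d0 A : ℝ) (U V' : Set ℝ) (D : Finset ℤ), 1 ≤ H → 1 ≤ lam → lam ≤ 4 → MeasurableSet U → U ⊆ Icc (-2 : ℝ) 2 → |X| ≤ 1 / 16 → |d0 - 1| ≤ 1 / 100 → |A| ≤ 1 →
  (∀ y : ℝ, volume.real (U ∩ Icc y (y + 1 / ((2 * H : ℕ) : ℝ))) ≤ ϑ / ((2 * H : ℕ) : ℝ)) → MeasurableSet V' → V' ⊆ (fun u : ℝ => A + mm X u / d0 ^ 2) '' U → 0 ≤ Q2 →
  (∀ d ∈ D, ∑ d' ∈ D.filter (fun d' : ℤ => (H : ℤ) ≤ |d' - d|), ‖kk U X (lam / d0 ^ 2 * ((d' : ℝ) - d))‖ ≤ Q2) →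
    ∀ b : ℤ → ℂ, ∫ v in V', ‖∑ d ∈ D, b d * ee (lam * d * v)‖ ^ 2 ≤ C * (ϑ + Q2) * ∑ d ∈ D, ‖b d‖ ^ 2

end

end Pool.Agent.LP
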