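import Pool.Agent.helper84.LP.SpecP
import Pool.Agent.helper52.IR.SpecC

/-!
# MP_07c750 (quantum unique ergodicity, weight 10), PROJECT LP (helper84): geometry and dynamics, rows `lp:XXX`

Page: /team-store/LP_page_helper84.md; pure part: `SpecP`. `p = G m`, total time `n = 2p`, `N1 = nG G m = ⌈e^p⌉`, `D = DJ G m J` = the coarse digits of the frequencies.

RULES. Row `lp:XXX` (problem MP_07c750_an): file `Pool/Agent/<seat>/LP/XXX.lean`, `import Pool.Agent.helper84.LP.SpecG` (and what you need), `set_option autoImplicit false`, namespace `Pool.Agent.LP`, the opens of this file, auxiliary lemmas prefixed `XXX_`, theorem `XXX_proof (h : YYY_stmt) .. : XXX_stmt` with the rows listed in `from` as hypotheses (all rows of IR are proved: `IR.A_XXX` in `Pool.Agent.helper25.IR.All`; rows of other projects as `(h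 : RS.GLC_stmt)` or their proved versions `A_XXX`).
No straight double quotes, no `convert`, `congr!`, `native_decide`. A false or doubtful statement: message to helper84 at once.
-/

open scoped MatrixGroups ContDiff Topology UpperHalfPlane ComplexConjugate
open UpperHalfPlane MeasureTheory Filter Set

set_option autoImplicit false

namespace Pool.Agent.LP

open Pool.Agent.RS
open Pool.Agent.MS (bq BB BA SF pf)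
open Pool.Agent.HV (FW)
open Pool.Agent.EN (XG MG mkX mkM fl pr)
open Pool.Agent.ER (Low LowJ)

noncomputable section

/-! ## Geometry -/

/-- the lower right entry of `lM w * aM τ * nM x` -/
def dX (w τ x : ℝ) : ℝ := Real.exp (-(τ / 2)) + w * x * Real.exp (τ / 2)

/-- the slope of the leaf of `lM w * aM τ * nM x` -/
def sX (w τ x : ℝ) : ℝ := x * Real.exp (τ / 2) / dX w τ x

/-- the unstable coordinates `u` of the leaf of `z` with the future `[0, G m]` in the boxes `Au` and the future `[(G - 1) m, G m]` in the boxes `Ad` -/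
def US (Γ : Subgroup SL(2, ℝ)) (Au Ad : Finset SL(2, ℝ)) (b : ℝ) (G m : ℕ) (z : SL(2, ℝ)) : Set ℝ :=
  {u | |u| ≤ 2 ∧ z * lM u ∈ FW Γ Au b (Real.exp (-(G * m))) ∧ z * lM u * aM (((G : ℝ) - 1) * m) ∈ FW Γ Ad b (Real.exp (-m))}

/-- **Row MO2** (the holonomy is a Moebius map; short; pure matrices; the proof of helper32/T1/MOB.lean with `|V| ≤ 1` in place of `0 ≤ V ≤ 4`). `M = lM w aM τ nM x = [[E, x E], [w E, d]]`, `E = e^(τ/2)`, `d = dX`, `M lM V = [[E (1 + x V), x E], [w E + d V, d]]`; `e^(τ'/2) = E (1 + xV)`, `u = (w E + d V)/(E (1 + xV))`, `x' = x/(1 + xV)`.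
`V = (u - w) E/(d (1 - X u)) = -w E/d + u (1 - w X) E/(d (1 - X u))` and `(1 - w X) E = 1/d` (determinant), `X = sX = x E/d`. -/
def MO2_stmt : Prop := ∀ b0 w τ x V : ℝ, 0 < b0 → b0 ≤ 1 / 1000 → |w| ≤ b0 → |τ| ≤ b0 → |x| ≤ b0 → |V| ≤ 1 →
  |dX w τ x - 1| ≤ 2 * b0 ∧ |sX w τ x| ≤ 2 * b0 ∧ |w * Real.exp (τ / 2) / dX w τ x| ≤ 2 * b0 ∧
    ∃ u τ' x' : ℝ, |u| ≤ 2 ∧ |τ'| ≤ 20 * b0 ∧ |x'| ≤ 4 * b0 ∧ lM w * aM τ * nM x * lM V = lM u * aM τ' * nM x' ∧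
      V = -(w * Real.exp (τ / 2) / dX w τ x) + mm (sX w τ x) u / dX w τ x ^ 2

/-- **Row UZL** (short-medium; from HV.BWM (`HV.A_BWM`), IR.YVO, RS.GLC (continuity of `lM`)). Measurable: preimages of the measurable set `FW` under continuous maps. Length: YVO with `σ = 0`, `k = G m`, `v0 = 0` (`aM 0 = 1`), and `σ = (G - 1) m`, `k = m`, `v0 = y`. -/
def UZL_stmt : Prop := ∀ Γ : Subgroup SL(2, ℝ), QU.SurfaceGroup Γ → ∃ C : ℝ, 1 ≤ C ∧ ∀ (b : ℝ) (G m : ℕ) (Au Ad : Finset SL(2, ℝ)) (z : SL(2, ℝ)), 0 < b → b ≤ 1 / 100 →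
  MeasurableSet (US Γ Au Ad b G m z) ∧ US Γ Au Ad b G m z ⊆ Icc (-2 : ℝ) 2 ∧ volume.real (US Γ Au Ad b G m z) ≤ C * Au.card * Real.exp (-(G * m)) ∧
    ∀ y : ℝ, volume.real (US Γ Au Ad b G m z ∩ Icc y (y + 3 * Real.exp (-(((G : ℝ) - 1) * m)))) ≤ C * Ad.card * Real.exp (-(G * m))

/-- **Row MVU** (the local leaf is a Moebius image of a fixed set; short-medium; from MO2, RS.GLC; compare helper T1.UZC). MO2 with `b0 = b/1000`: `γ h lM V = z lM u aM τ' nM x'`, so `z lM u = γ h lM V q`, `q = (aM τ' nM x')⁻¹ = [[e^(-τ'/2), -x' e^(τ'/2)], [0, e^(τ'/2)]]`, `|τ'| ≤ b/50`, `|x'| ≤ b/250`. If `bq b b (b v) k1` then `bq (4b) (4b) (4b v) (k1 q)`.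
With `s = (G - 1) m ≥ 0`: `z lM u aM s = (γ h lM V aM s)(aM (-s) q aM s)`, and `aM (-s) q aM s` has the upper right entry `e^(-s) q01`. -/
def MVU_stmt : Prop := ∀ (Γ : Subgroup SL(2, ℝ)) (b w τ x V : ℝ) (G m : ℕ) (Au Ad : Finset SL(2, ℝ)) (h z : SL(2, ℝ)) (γ : Γ), 0 < b → b ≤ 1 / 400 → 1 ≤ G → |w| ≤ b / 1000 → |τ| ≤ b / 1000 → |x| ≤ b / 1000 → |V| ≤ 1 →
  (γ : SL(2, ℝ)) * h = z * lM w * aM τ * nM x → h * lM V ∈ FW Γ Au b (Real.exp (-(G * m))) → h * lM V * aM (((G : ℝ) - 1) * m) ∈ FW Γ Ad b (Real.exp (-m)) →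
    ∃ u ∈ US Γ Au Ad (4 * b) G m z, V = -(w * Real.exp (τ / 2) / dX w τ x) + mm (sX w τ x) u / dX w τ x ^ 2

/-- **Row BBX** (a cell of slopes is a forward box; short; pure matrices). `M = lM w aM τ nM x = nM X aM t lM u` with `X = sX`, `e^(-t/2) = dX`, `u = w e^(τ/2)/dX` (`|u| ≤ b/500`, `|dX - 1| ≤ b/500`: MO2 with `V = 0`, `b0 = b/1000`). `γ h aM(-p) = z M aM(-p) = z nM X0 aM(-p) [nM(e^p (X - X0)) aM t lM(e^(-p) u)]`, and `nM s aM t lM v = [[e^(t/2) + s v dX, s dX], [v dX, dX]]`, `|s| ≤ b/4`, `|v| ≤ e^(-p) b/500`. -/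
def BBX_stmt : Prop := ∀ (Γ : Subgroup SL(2, ℝ)) (b w τ x X0 p : ℝ) (h z : SL(2, ℝ)) (γ : Γ), 0 < b → b ≤ 1 / 100 → 0 ≤ p → |w| ≤ b / 1000 → |τ| ≤ b / 1000 → |x| ≤ b / 1000 →
  (γ : SL(2, ℝ)) * h = z * lM w * aM τ * nM x → |sX w τ x - X0| ≤ b / 4 * Real.exp (-p) → h * aM (-p) ∈ FW Γ {z * nM X0 * aM (-p)} b (Real.exp (-p))

/-- **Row CTD** (counting on a stable arc; medium; from IR.CTB, RS.GLC; the proof of helper73/IR/CT1.lean). The point of `j` is `e g lM(l u) nM z aM τ lM o = e g nM z' aM τ' lM o'` with `z = j εc + x`, `z' = z/(1 + l u z)`, `|z' - j εc| ≤ 5 εc ≤ e^(-(s+k))/2`. Fix `j0 ∈ J`, `x0 = j0 εc`, `z' = x0 + e^(-s) X`, `|X| ≤ 3`, `y = g nM x0 aM(-s)`: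
`g nM z' aM τ' lM o' aM(-(s+k)) = y nM X aM τ' lM(e^(-s) o') aM(-k)`: CTB with `k`: at most `C #A` cells `⌊X e^k⌋`; `j εc e^(s+k)` is within `1/2` of `x0 e^(s+k) + X e^k`: at most `4` values of the floor for every cell. -/
def CTD_stmt : Prop := ∀ Γ : Subgroup SL(2, ℝ), QU.SurfaceGroup Γ → ∃ C : ℝ, 1 ≤ C ∧ ∀ (b s k εc l l0 y : ℝ) (A : Finset SL(2, ℝ)) (g : SL(2, ℝ)) (J : Finset ℤ), 0 < b → b ≤ 1 / 100 → 0 ≤ s → 0 ≤ k → 0 < εc → 10 * εc ≤ Real.exp (-(s + k)) → 0 ≤ l → l ≤ l0 → l0 ≤ εc / 100 →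
  (∀ j ∈ J, |(j : ℝ) * εc - y| ≤ Real.exp (-s) ∧ IR.JC {h | h * aM (-(s + k)) ∈ FW Γ A b (Real.exp (-k))} εc l l0 g j) →
    ((J.image fun j : ℤ => ⌊(j : ℝ) * εc * Real.exp (s + k)⌋).card : ℝ) ≤ C * A.card

/-- **Row BAB** (the bad boxes; medium; from IR.NET, BBC, BBX, UZL, MO2). `Z` from NET for `b/1000`. `C` from UZL; BBC for `C1' = max C1 C`, and `β' < β` with `a + h - 1 + 5η + 6/G < β' (1/2 - a)`. For `z ∈ Z`: `U = US Γ Au Ad (64 b) G m z` (`64 b ≤ 1/100`), `vol U ≤ C e^((h + η - 1) G m)`;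
`K_z` = the `k` (in a finite range) such that the cell of `k` contains a bad `X`, `|X| ≤ 1/16` (bad for `C1` implies bad for `C1'`): `#K_z ≤ e^(β' G m)`. `Ab` = the `z nM(k ξ) aM(-G m)`, `ξ = (b/4) e^(-G m)`, `z ∈ Z`, `k ∈ K_z`: at most `#Z e^(β' G m) ≤ e^(β G m)`. For `h0`: NET gives `z, γ, w, τ, x`; if `X = sX` were bad (`|X| ≤ 2b/1000`) then BBX with `X0 = k ξ`, `k = ⌊X/ξ⌋`. -/
def BAB_stmt : Prop := ∀ Γ : Subgroup SL(2, ℝ), QU.SurfaceGroup Γ → ∀ (C1 a η h β b : ℝ) (G : ℕ), 1 ≤ C1 → 0 ≤ a → a < 1 / 2 → 0 < η → a + η ≤ 1 → 2 ≤ G → 0 < b → b ≤ 1 / 6400 → a + h - 1 + 5 * η + 6 / (G : ℝ) < β * (1 / 2 - a) →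
  ∃ m0 : ℕ, ∀ (m : ℕ) (Au Ad : Finset SL(2, ℝ)), m0 ≤ m → (Au.card : ℝ) ≤ Real.exp ((h + η) * (G * m)) →
    ∃ Ab : Finset SL(2, ℝ), (Ab.card : ℝ) ≤ Real.exp (β * (G * m)) ∧ ∀ h0 : SL(2, ℝ), h0 * aM (-(G * m)) ∉ FW Γ Ab b (Real.exp (-(G * m))) →
      ∃ (z : SL(2, ℝ)) (γ : Γ) (w τ x : ℝ), |w| ≤ b / 1000 ∧ |τ| ≤ b / 1000 ∧ |x| ≤ b / 1000 ∧ (γ : SL(2, ℝ)) * h0 = z * lM w * aM τ * nM x ∧ GD (US Γ Au Ad (64 * b) G m z) C1 a η G m (sX w τ x)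

/-! ## The leaf inequality -/

/-- the number of coarse cells `⌈e^(Gm)⌉` -/
def nG (G m : ℕ) : ℕ := ⌈Real.exp (G * m)⌉₊

/-- the coarse digits of the frequencies -/
def DJ (G m : ℕ) (J : Finset ℤ) : Finset ℤ := J.image fun j : ℤ => j / ((nG G m : ℕ) : ℤ)

/-- **Row LGD** (THE LEAF INEQUALITY FOR GOOD LEAVES; medium-long; from BAB, MVU, MO2, LCL, SBA, UZL, RS.GLC). `Ab` from BAB. SBA with `N1 = nG G m` (`e^(Gm) ≤ N1 ≤ 2 e^(Gm)`). Local inequality on `I_c`: if `Y ∩ I_c` is empty it is trivial; else fix `v0` in it, `h0 = g lM v0 aM(G m)`: `h0 aM(-Gm) = g lM v0 ∉ FW Ab`, so BAB gives `z, γ, w, τ, x`. `v = v0 + e^(-Gm) V`, `|V| ≤ 1`: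
`g lM v aM(Gm) = h0 lM V`, `g lM v aM((2G-1)m) = h0 lM V aM((G-1)m)`: MVU (`b := 16 b`): `V ∈ φ '' U`, `U = US Γ Au Ad (64 b) G m z`, `φ u = A + mm X u/d0²`, `X = sX`, `d0 = dX`, `A = -(w e^(τ/2)/dX)`. Substitution: `∫_(Y ∩ I_c) = e^(-Gm) ∫_(V')`, `e^(-Gm) ≤ 2/N1`, the phase is `π N1 d v/2 = const_d + lam d V`, `lam = π N1 e^(-Gm)/2 ∈ [π/2, 3.2]`.
LCL with `H = hG G m` (`e^((G-1)m)/4 ≤ H`, `2H ≤ e^((G-1)m)`), `ϑ = 2H C #Ad e^(-Gm) ≤ C e^((h + η - 1) m)` (UZL: `1/(2H) ≤ 3 e^(-(G-1)m)`), `Q2 = e^(-m)`: GD for `D = DJ G m J`, `c = lam/d0² ∈ [1, 4]`. -/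
def LGD_stmt : Prop := ∀ Γ : Subgroup SL(2, ℝ), QU.SurfaceGroup Γ → ∀ (C1 a η h β b : ℝ) (G : ℕ), 1 ≤ C1 → 0 ≤ a → a < 1 / 2 → 0 < η → a + η ≤ 1 → 2 ≤ G → 0 < b → b ≤ 1 / 6400 → a + h - 1 + 5 * η + 6 / (G : ℝ) < β * (1 / 2 - a) →
  ∃ (C : ℝ) (m0 : ℕ), 1 ≤ C ∧ ∀ (m : ℕ) (Au Ad : Finset SL(2, ℝ)), m0 ≤ m → (Au.card : ℝ) ≤ Real.exp ((h + η) * (G * m)) → (Ad.card : ℝ) ≤ Real.exp ((h + η) * m) →
    ∃ Ab : Finset SL(2, ℝ), (Ab.card : ℝ) ≤ Real.exp (β * (G * m)) ∧ ∀ (g : SL(2, ℝ)) (Y : Set ℝ) (J : Finset ℤ) (c : ℤ → ℂ), MeasurableSet Y → Y ⊆ Icc (0 : ℝ) 1 →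
      (∀ v ∈ Y, g * lM v ∉ FW Γ Ab b (Real.exp (-(G * m))) ∧ g * lM v * aM (G * m) ∈ FW Γ Au (16 * b) (Real.exp (-(G * m))) ∧ g * lM v * aM ((2 * (G : ℝ) - 1) * m) ∈ FW Γ Ad (16 * b) (Real.exp (-m))) →
      AR C1 a η G m (DJ G m J) →
        ∫ v in Y, ‖∑ j ∈ J, c j * ee (Real.pi * j * v / 2)‖ ^ 2 ≤ C * (Real.exp ((h + η - 1) * m) + Real.exp (-m)) * ∑ j ∈ J, ‖c j‖ ^ 2

/-- **Row LTV** (the trivial leaf inequality; short-medium; from SBA, IR.YVO). SBA with `N1 = nG G m`: `∫_(Y ∩ I_c) |Σ_d b_d ee|² ≤ #D vol(Y ∩ I_c) Σ |b_d|²`; `vol(Y ∩ I_c) ≤ C #Au e^(-2Gm)` (YVO with `σ = k = G m`, `I_c` has the length `1/N1 ≤ e^(-Gm)`), `#D ≤ (C1 + 1) C1 e^((a + η) G m)` (AR with `i = G`: `D ⊆ [-C1 e^(Gm), C1 e^(Gm)]` is covered by `C1 + 1` intervals of half length `e^(Gm)`). -/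
def LTV_stmt : Prop := ∀ Γ : Subgroup SL(2, ℝ), QU.SurfaceGroup Γ → ∀ (C1 a η h : ℝ) (G : ℕ), 1 ≤ C1 → 0 ≤ a → 0 < η → 1 ≤ G →
  ∃ C : ℝ, 1 ≤ C ∧ ∀ (b : ℝ) (m : ℕ) (Au : Finset SL(2, ℝ)), 0 < b → b ≤ 1 / 100 → (Au.card : ℝ) ≤ Real.exp ((h + η) * (G * m)) → ∀ (g : SL(2, ℝ)) (Y : Set ℝ) (J : Finset ℤ) (c : ℤ → ℂ), MeasurableSet Y → Y ⊆ Icc (0 : ℝ) 1 →
    (∀ v ∈ Y, g * lM v * aM (G * m) ∈ FW Γ Au b (Real.exp (-(G * m)))) → AR C1 a η G m (DJ G m J) →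
      ∫ v in Y, ‖∑ j ∈ J, c j * ee (Real.pi * j * v / 2)‖ ^ 2 ≤ C * Real.exp ((a + h + 2 * η - 1) * (G * m)) * ∑ j ∈ J, ‖c j‖ ^ 2

/-! ## Dynamics -/

/-- `E` is invariant up to measure zero and is covered by `e^((ρ + η) n)` boxes of every large length `n` -/
def CO (Γ : Subgroup SL(2, ℝ)) (μ : Measure (XG Γ)) (E : Set (XG Γ)) (ρ : ℝ) : Prop := (∀ n : ℕ, μ.real (E \ (fl Γ n) ⁻¹' E) = 0) ∧
  ∀ a η δ : ℝ, 0 < a → 0 < η → 0 < δ → ∃ n0 : ℕ, ∀ n : ℕ, n0 ≤ n → ∃ A : Finset SL(2, ℝ), (A.card : ℝ) ≤ Real.exp ((ρ + η) * n) ∧ μ.real (E \ IR.BX Γ A a n) ≤ δ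

/-- **Row COL** (short; from IR.COV, IR.FLI: `Low \ fl⁻¹ Low` is empty). -/
def COL_stmt : Prop := ∀ (Γ : Subgroup SL(2, ℝ)) (μ : Measure (XG Γ)) (ρ : ℝ), QU.SurfaceGroup Γ → IsProbabilityMeasure μ → (∀ t, μ.map (fl Γ t) = μ) → 0 ≤ ρ → CO Γ μ (Low Γ μ ρ) ρ

/-- **Row WCO** (covering of a later window; short; from EN.XFL; see helper34/IR/FWD.lean). `E \ fl⁻¹ BX ⊆ (E \ fl⁻¹ E) ∪ fl⁻¹ (E \ BX)`; `fl s` is a homeomorphism which preserves `μ`, so `μ (fl s ⁻¹' S) = μ S` for all `S`. -/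
def WCO_stmt : Prop := ∀ (Γ : Subgroup SL(2, ℝ)) (μ : Measure (XG Γ)) (E : Set (XG Γ)) (ρ : ℝ), QU.SurfaceGroup Γ → IsProbabilityMeasure μ → (∀ t, μ.map (fl Γ t) = μ) → CO Γ μ E ρ →
  ∀ a η δ : ℝ, 0 < a → 0 < η → 0 < δ → ∃ n0 : ℕ, ∀ n : ℕ, n0 ≤ n → ∃ A : Finset SL(2, ℝ), (A.card : ℝ) ≤ Real.exp ((ρ + η) * n) ∧ ∀ s : ℕ, μ.real (E \ (fl Γ s) ⁻¹' IR.BX Γ A a n) ≤ δ

/-- the leaf inequality of the function `Ψ` for the frequencies with `a`-regular coarse digits -/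
def LFS (Ψ : SL(2, ℝ) → ℝ) (C1 a η Q : ℝ) (G m : ℕ) : Prop := ∀ (g : SL(2, ℝ)) (J : Finset ℤ) (c : ℤ → ℂ), AR C1 a η G m (DJ G m J) →
  ∫ v in Icc (0 : ℝ) 1 ∩ {v | Ψ (g * lM v) ≠ 0}, ‖∑ j ∈ J, c j * ee (Real.pi * j * v / 2)‖ ^ 2 ≤ Q * ∑ j ∈ J, ‖c j‖ ^ 2

/-- there are forward functions for the set `E` (of time `2 G m`) with arbitrarily small leaf constants -/
def FF (Γ : Subgroup SL(2, ℝ)) (μ : Measure (XG Γ)) (a η : ℝ) (G : ℕ) (E : Set (XG Γ)) : Prop := ∀ δ : ℝ, 0 < δ → ∃ C3 : ℝ, 1 ≤ C3 ∧ ∀ C1 Q : ℝ, 1 ≤ C1 → 0 < Q → ∃ m0 : ℕ, ∀ m : ℕ, m0 ≤ m →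
  ∃ Ψ Ψa Ψn Ψl : SL(2, ℝ) → ℝ, SF Γ Ψ Ψa Ψn Ψl ∧ (∀ g, 0 ≤ Ψ g ∧ Ψ g ≤ 1) ∧ (∀ g, |Ψn g| ≤ C3) ∧ (∀ g, |Ψl g| ≤ C3 * Real.exp (2 * (G * m))) ∧ μ.real (E \ IR.one Γ Ψ) ≤ δ ∧ LFS Ψ C1 a η Q G m

/-- **Row FGD** (forward functions outside of the low entropy part; medium-long; from MS.BXM, IR.SFP, WCO, IR.LOB, LGD, EN.XFL, RS.GLC; compare helper25/HH/HBK.lean, helper34/IR/FWD.lean). `δ`: LOB for `s = β`, `δ/3`: `b1`; `b = min (a0 of BXM) (min (1/6400) (b1/16))`, `C` from BXM, `C3 = 3 C + 1`. Given `C1, Q`: LGD; `m` large so that `C (e^((h+η-1)m) + e^(-m)) ≤ Q` (`h + η < 1`).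
`Au`, `Ad` from WCO (`a := b`, `η`, `δ/3`) for the lengths `G m` and `m`, `Ab` from LGD. `Ψ(g) = Ψ_u(g aM(Gm)) Ψ_d(g aM((2G-1)m)) (1 - Ψ_b(g))`, all from BXM (lengths `Gm`, `m`, `Gm`). Derivatives (SFP): `|Ψn| ≤ 3C`, `|Ψl| ≤ C (e^(Gm) e^(Gm) + e^((2G-1)m) e^m + e^(Gm))`.
Mass: `(E \ Low β) \ one Ψ ⊆ (E \ fl(Gm)⁻¹ BX Au) ∪ (E \ fl((2G-1)m)⁻¹ BX Ad) ∪ (BX Ab (16b) (Gm) \ Low β)`, LOB with `2q = G m` (`G` is even). `Ψ ≠ 0` implies `Ψ_b ≠ 1`, so `∉ FW Ab b`, and `Ψ_u ≠ 0`, `Ψ_d ≠ 0`: the boxes of size `16 b`. -/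
def FGD_stmt : Prop := ∀ (Γ : Subgroup SL(2, ℝ)) (μ : Measure (XG Γ)) (E : Set (XG Γ)) (a η h β : ℝ) (G : ℕ), QU.SurfaceGroup Γ → IsProbabilityMeasure μ → (∀ t, μ.map (fl Γ t) = μ) → 0 ≤ a → a < 1 / 2 → 0 < η → a + η ≤ 1 → h + η < 1 → 0 ≤ β → Even G → 2 ≤ G →
  a + h - 1 + 5 * η + 6 / (G : ℝ) < β * (1 / 2 - a) → CO Γ μ E h → FF Γ μ a η G (E \ Low Γ μ β)

/-- **Row FTR** (forward functions, small entropy; short-medium; from MS.BXM, IR.SFP, WCO, LTV, EN.XFL). `b = min a0 (1/1600)`, `Ψ(g) = Ψ_u(g aM(Gm))`, LTV with `16 b`. -/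
def FTR_stmt : Prop := ∀ (Γ : Subgroup SL(2, ℝ)) (μ : Measure (XG Γ)) (E : Set (XG Γ)) (a η h : ℝ) (G : ℕ), QU.SurfaceGroup Γ → IsProbabilityMeasure μ → (∀ t, μ.map (fl Γ t) = μ) → 0 ≤ a → 0 < η → 1 ≤ G → a + h + 2 * η < 1 → CO Γ μ E h → FF Γ μ a η G E

/-- **Row FUN** (union; short-medium; from IR.SFP). `Ψ = 1 - (1 - Ψ1)(1 - Ψ2)`, `C3 = C3' + C3''`; `Q/2` for both; the integrand is nonnegative and `{Ψ ≠ 0} ⊆ {Ψ1 ≠ 0} ∪ {Ψ2 ≠ 0}`. -/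
def FUN_stmt : Prop := ∀ (Γ : Subgroup SL(2, ℝ)) (μ : Measure (XG Γ)) (E E' : Set (XG Γ)) (a η : ℝ) (G : ℕ), IsProbabilityMeasure μ → FF Γ μ a η G E → FF Γ μ a η G E' → FF Γ μ a η G (E ∪ E')

/-- **Row FCH** (THE CHAIN; short-medium; numbers and induction; from FGD, FTR, FUN, COL). `κ0 = (1 - a) - h (1/2 + a) > 0`, `g = min κ0 (1/4)`; `η > 0` with `5η ≤ κ0/8`, `η ≤ 1/16`, `h + η < 1`, `a + η ≤ 1`; `G` even with `6/G ≤ κ0/8`, `G ≥ 2`. For `β ≤ h`: `a + β - 1 + 5η + 6/G < (β - g)(1/2 - a)`, because `β (1/2 - a) - (a + β - 1) = (1 - a) - β (1/2 + a) ≥ κ0` and `g (1/2 - a) ≤ κ0/2`.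
`t0 = 1 - a - 3η`. Induction on `k`: for all `β` with `0 ≤ β ≤ h`, `β ≤ t0 + k g` and all `E` with `CO E β`: `FF E`. `k = 0`: FTR. Step: if `β > t0 + k g ≥ 1/4` then `β - g ≥ 0`; `E ⊆ (E \ Low (β - g)) ∪ Low (β - g)`: FGD, COL with the induction hypothesis, FUN, and FF is monotone in `E`. -/
def FCH_stmt : Prop := ∀ a h : ℝ, 0 ≤ a → a < 1 / 2 → 0 ≤ h → h < 1 → 2 * a * (1 + h) < 2 - h → ∃ (η : ℝ) (G : ℕ), 0 < η ∧ 1 ≤ G ∧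
  ∀ (Γ : Subgroup SL(2, ℝ)) (μ : Measure (XG Γ)) (E : Set (XG Γ)), QU.SurfaceGroup Γ → IsProbabilityMeasure μ → (∀ t, μ.map (fl Γ t) = μ) → CO Γ μ E h → FF Γ μ a η G E

/-- **Row BKA** (THE BACKWARD FUNCTION; medium-long; from MS.BXM, IR.SFP, COL, WCO, CTD, EN.XFL, RS.GLC; compare helper25/HH/HBK.lean (product of many windows)). `b = min a0 (1/1600)`; for `1 ≤ i ≤ G`: `A_i` from WCO for `Low a`, `η`, `δ/G`, length `i m`, `Ψ_i` from BXM; `Ψ(k) = Π_(i=1..G) Ψ_i(k aM(G m))`. Mass: `{x ∈ Low a | fl(Gm) x ∉ BX A_i}` has measure `≤ δ/G`.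
AR: `|j| εc ≤ 3/10` and `εc = π/(2Λ2) e^(-2Gm)`: `|d| ≤ Λ2 e^(Gm) + 1`. Count for `i = 0`: at most `3`. For `i ≥ 1`: `s = (G - i) m`, `k = i m`: the point `h` of `j` has `h aM(-(s+k)) = (h aM(-2Gm)) aM(Gm) ∈ FW Γ A_i (16b) e^(-k)`: CTD (`10 εc ≤ e^(-Gm)`). `d = j / N1`, `|d - y| ≤ e^(im)` implies `|j εc - y N1 εc| ≤ (e^(im) + 1) N1 εc ≤ 2 e^(im) (π/Λ2) e^(-Gm) ≤ e^(-s)` (`Λ2 ≥ 10`);
`j εc e^(Gm) = (j/N1) c'`, `c' = N1 εc e^(Gm) ≥ π/(2Λ2)`, so every cell `⌊j εc e^(Gm)⌋` contains at most `Λ2 + 2` values of `d`. Choose one `j` for every `d`. -/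
def BKA_stmt : Prop := ∀ (Γ : Subgroup SL(2, ℝ)) (μ : Measure (XG Γ)) (a : ℝ), QU.SurfaceGroup Γ → IsProbabilityMeasure μ → (∀ t, μ.map (fl Γ t) = μ) → 0 ≤ a → ∀ (Λ2 η δ : ℝ) (G : ℕ), 10 ≤ Λ2 → 0 < η → 0 < δ → 1 ≤ G → ∃ (C1 : ℝ) (m0 : ℕ), 1 ≤ C1 ∧
  ∀ (m : ℕ) (εc : ℝ), m0 ≤ m → εc = Real.pi / (2 * Λ2) * Real.exp (-(2 * (G * m))) → ∃ (Ψ Ψa Ψn Ψl : SL(2, ℝ) → ℝ) (B : ℝ), SF Γ Ψ Ψa Ψn Ψl ∧ (∀ g, 0 ≤ Ψ g ∧ Ψ g ≤ 1) ∧ (∀ g, |Ψn g| ≤ B) ∧ (∀ g, |Ψl g| ≤ B) ∧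
    μ.real (Low Γ μ a \ IR.one Γ Ψ) ≤ δ ∧ ∀ (l l0 : ℝ) (g : SL(2, ℝ)) (J : Finset ℤ), 0 ≤ l → l ≤ l0 → l0 ≤ εc / 100 → (∀ j ∈ J, IR.JC {k | Ψ (k * aM (-(2 * (G * m)))) ≠ 0} εc l l0 g j) → AR C1 a η G m (DJ G m J)

/-- **Row LPM** (THE THEOREM for a measure with the property GP and an invariant set `E` covered by few boxes; medium; from FCH, BKA; the proof of HHM_key in helper25/HH/HHM.lean). For `0 < e ≤ 1`: FCH: `η, G`; `C3` from FF for `δ := e`; `δ = (e/200)²`, `Λ2 = 4 K C3/δ ≥ 10`, BKA (mass `e`): `C1`; FF for `C1`, `Q = δ²/128`; `m` large, `n = 2 * (G * m)`, `εc = π/(2Λ2) e^(-n) = π/(4 L0)`, `l0 = εc/100`.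
GP: `μ (one Ψ) + μ (one Ψ') ≤ 1 + e`, so `μ E + μ (Low a) ≤ 1 + 3 e`. -/
def LPM_stmt : Prop := ∀ (Γ : Subgroup SL(2, ℝ)) (μ : Measure (XG Γ)) (K a h : ℝ) (E : Set (XG Γ)), QU.SurfaceGroup Γ → IsProbabilityMeasure μ → (∀ t, μ.map (fl Γ t) = μ) → 1 ≤ K → IR.GP Γ μ K → 0 ≤ a → a < 1 / 2 → 0 ≤ h → h < 1 → 2 * a * (1 + h) < 2 - h →
  CO Γ μ E h → μ.real E + μ.real (Low Γ μ a) ≤ 1

/-! ## The uniform part -/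

/-- **Row LDV** (large deviations on a leaf; short; from RS.QEX (`RS.A_QEX`)). QEX for `-V`, `ε/2`, and Chebyshev: on the set the exponential is `≥ exp(-θ (M - ε) T)`, so the measure is `≤ C exp(-θ ε T/2)`. -/
def LDV_stmt : Prop := ∀ (Γ : Subgroup SL(2, ℝ)) (F : Set ℍ) (V : ℍ → ℝ) (ε : ℝ), QU.SurfaceGroup Γ → QU.NiceDom Γ F → QU.Inv Γ V → 0 < ε → ∃ c C : ℝ, 0 < c ∧ 0 < C ∧ ∀ (T : ℝ) (g : SL(2, ℝ)), 0 ≤ T →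
  volume.real {v : ℝ | v ∈ Icc (0 : ℝ) 1 ∧ ∫ t in (0 : ℝ)..T, V ((g * lM v * aM t) • I) ≤ ((∫ z in F, V z) / (volume F).toReal - ε) * T} ≤ C * Real.exp (-(c * T))

/-- **Row UCV** (uniform continuity; short-medium; `Γ` is cocompact: QU.DOB / NiceDom, RS.GLC). -/
def UCV_stmt : Prop := ∀ (Γ : Subgroup SL(2, ℝ)) (V : ℍ → ℝ) (ε : ℝ), QU.SurfaceGroup Γ → QU.Inv Γ V → 0 < ε → ∃ δ : ℝ, 0 < δ ∧ ∀ g k : SL(2, ℝ), (∀ i j : Fin 2, |k.1 i j - (1 : Matrix (Fin 2) (Fin 2) ℝ) i j| ≤ δ) → |V ((g * k) • I) - V (g • I)| ≤ ε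

/-- **Row LDB** (large deviations and boxes; medium; from LDV, UCV, IR.NET, RS.GLC). `M` = the mean. LDV for `ε/2`: `c', C`; `c = min (c'/2) 1`. UCV for `ε/2`: `δ`. `b = min (δ/100) (min (a/8) (1/100))`, `Z` from NET for `b`. For `z ∈ Z` let `K_z` = the integers `κ` such that some `w ∈ [κ b e^(-n), (κ + 1) b e^(-n)]`, `|w| ≤ b`, and `|τ|, |x| ≤ b` have `∫_0^n V((z lM w aM τ nM x aM t) • I) ≤ (M - ε) n`.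
For `w'` in the same cell `z lM w aM τ nM x aM t = z lM w' aM t k`, `k = aM(-t) lM(w - w') aM τ nM x aM t` is `δ`-close to `1` for `0 ≤ t ≤ n`; so `∫_0^n V((z lM w' aM t) • I) ≤ (M - ε/2) n` for ALL `w'` of the cell: `#K_z b e^(-n) ≤ 2 C e^(-c' n)` (LDV for `g = z` and `g = z lM (-1)`; cells overlap in points only). `A` = the `z lM (κ b e^(-n))`, at most `#Z (2C/b) e^((1 - c') n) ≤ e^((1 - c) n)`.
`(z lM(κ b e^(-n)))⁻¹ γ g = lM(w - κ b e^(-n)) aM τ nM x` satisfies `bq a a (a e^(-n))`. -/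
def LDB_stmt : Prop := ∀ (Γ : Subgroup SL(2, ℝ)) (F : Set ℍ) (V : ℍ → ℝ) (ε : ℝ), QU.SurfaceGroup Γ → QU.NiceDom Γ F → QU.Inv Γ V → 0 < ε → ∃ c : ℝ, 0 < c ∧ c ≤ 1 ∧ ∀ a : ℝ, 0 < a → ∃ n0 : ℕ, ∀ n : ℕ, n0 ≤ n →
  ∃ A : Finset SL(2, ℝ), (A.card : ℝ) ≤ Real.exp ((1 - c) * n) ∧ ∀ g : SL(2, ℝ), ∫ t in (0 : ℝ)..n, V ((g * aM t) • I) ≤ ((∫ z in F, V z) / (volume F).toReal - ε) * n → mkX Γ g ∈ IR.BX Γ A a n

/-- **Row MEV** (mean ergodic theorem; medium; from EN.XFL, EN.XTX; Mathlib: `ContinuousLinearMap.tendsto_birkhoffAverage_orthogonalProjection`, `Lp.compMeasurePreserving`). `f1(x) = ∫_0^1 V(pr (fl t x)) dt` is continuous on the compact space `X`; the Koopman operator of `fl 1` on `L²(μ; ℝ)` is an isometry; the Birkhoff averages of `f1` are `(1/n) ∫_0^n V(pr (fl t x)) dt` and converge in `L²` to the projection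 `P f1`, invariant under `fl 1`.
`f̄` = a measurable representative, truncated to `[0, 1]` (the averages are in `[0, 1]`, so almost everywhere `0 ≤ P f1 ≤ 1`). `L²` convergence gives convergence in measure and of the integrals. -/
def MEV_stmt : Prop := ∀ (Γ : Subgroup SL(2, ℝ)) (μ : Measure (XG Γ)) (V : MG Γ → ℝ), QU.SurfaceGroup Γ → IsProbabilityMeasure μ → (∀ t, μ.map (fl Γ t) = μ) → Continuous V → (∀ y, 0 ≤ V y ∧ V y ≤ 1) →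
  ∃ f : XG Γ → ℝ, Measurable f ∧ (∀ x, 0 ≤ f x ∧ f x ≤ 1) ∧ (∀ n : ℕ, ∀ᵐ x ∂μ, f (fl Γ n x) = f x) ∧ ∫ x, f x ∂μ = ∫ x, V (pr Γ x) ∂μ ∧
    ∀ ε δ : ℝ, 0 < ε → 0 < δ → ∃ n0 : ℕ, ∀ n : ℕ, n0 ≤ n → μ.real {x | ε * n ≤ |(∫ t in (0 : ℝ)..n, V (pr Γ (fl Γ t x))) - f x * n|} ≤ δ

/-- **Row UPA** (THE UNIFORM PART; short-medium; from LPM, LDB, MEV, EN.XFL). `M` = the mean; if `M ≤ ε`: trivial for this `ε`. `f` from MEV, `E = {x | f x < M - ε}`. CO `E` with `ρ = 1 - c`, `c` from LDB for `ε/2`: `E \ {x | ∫_0^n V ≤ (M - ε/2) n} ⊆ {ε/2 n ≤ |∫_0^n V - f n|}` has measure `≤ δ` for large `n`; invariance from `f (fl n x) = f x`.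
LPM with `h = 1 - c` (`2a(1 + h) ≤ (1 + h)/2 < 2 - h`): `μ (Low a) ≤ μ (Eᶜ)`, `∫ V = ∫ f ≥ (M - ε) μ (Eᶜ) ≥ (M - ε) μ (Low a)`. `ε → 0`. -/
def UPA_stmt : Prop := ∀ (Γ : Subgroup SL(2, ℝ)) (F : Set ℍ) (μ : Measure (XG Γ)) (K a : ℝ) (V : MG Γ → ℝ), QU.SurfaceGroup Γ → QU.NiceDom Γ F → IsProbabilityMeasure μ → (∀ t, μ.map (fl Γ t) = μ) → 1 ≤ K → IR.GP Γ μ K → 0 ≤ a → a ≤ 1 / 4 → Continuous V → (∀ y, 0 ≤ V y ∧ V y ≤ 1) →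
  μ.real (Low Γ μ a) * ((∫ z in F, V (mkM Γ z)) / (volume F).toReal) ≤ ∫ x, V (pr Γ x) ∂μ

end

end Pool.Agent.LP
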